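import Pool.Agent.R669.Wt.Vng

/-!
# Graphs of groups with virtually nilpotent edge groups which are embedded with equal orders

`C` is any class of groups with the closure properties `ClosedE C` which contains the groups `GL_n(ℚ)`.
All this is known for the class of the groups that satisfy the A-theoretic Farrell–Jones conjecture with
coefficients and finite wreath products. It is not known whether this class is closed under amalgamated
products and HNN extensions along nilpotent (or abelian, or infinite cyclic) groups.

Let `w` be any function on a group `N` whose values are positive integers. The subspace `Fw w d` of the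
group algebra `ℚ[N]` is spanned by the products `(g_1 - 1)⋯(g_s - 1)` with `w g_1 + ⋯ + w g_s ≥ d`. For
`w = 1` it is the `d`-th power of the augmentation ideal. The element `g` has order `k` with respect to
`w` if `g - 1` lies in `Fw w k`, but not in `Fw w (k + 1)` (`HasOrd`). For `w = 1` all elements `g ≠ 1` of a
residually torsion-free nilpotent group have a finite order (Jennings, Hall).

(1) Let `M` be in `C` and let `α_i, β_i : B_i → M` be homomorphisms, `i ∈ I`. Suppose that for each finite
subset `J` of `I` there are a normal subgroup `N` of finite index of `M` and weights `w` on `N`, invariant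
under conjugation by elements of `M`, such that for all `i` in `J`: the preimages of `N` under `α_i` and
`β_i` are equal, this subgroup `B_i⁰` of `B_i` is locally nilpotent (it need not be finitely generated), and
`α_i b` and `β_i b` have the same finite order with respect to `w` for all `b ≠ 1` in `B_i⁰` (`SameOrdV`).
Then the multiple HNN extension `⟨M, t_i | t_i α_i(b) t_i⁻¹ = β_i(b)⟩` is in `C`.

(2) Consider a graph of groups with vertex groups `G_v` in `C` and edge groups `B_e`. Suppose that for
each finite set `J` of edges there are normal subgroups `N_v` of finite index of the `G_v`, invariant weights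
on them and rational numbers `r_v > 0` such that for all edges `e` in `J` the preimages of `N_{o(e)}` and
`N_{t(e)}` in `B_e` are equal and locally nilpotent, and the images of all `x ≠ 1` in this subgroup have
finite orders `k` and `l` with `r_{o(e)} k = r_{t(e)} l` (`BalancedV`). Then Serre's group of the graph of
groups is in `C`, and so is its subgroup, the fundamental group of the graph of groups.

(3), (4) The case `N = M` (or `N_v = G_v`), in which the invariance of the weights can be dropped: the
condition of (1) holds if the `B_i` are locally nilpotent and for each finite `J` there are weights `w` on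
`M` such that `α_i b` and `β_i b` have the same finite order for all `b ≠ 1` (`SameOrdA`); similarly for
graphs of groups (`BalancedE`).

(5) The condition of (1) holds if `β_i = θ_i α_i` for an automorphism `θ_i` of `M` with `θ_i⁻¹(N) = N`, the
preimage of `N` under `α_i` is locally nilpotent, and the elements `α_i b`, `b ≠ 1`, of `N` have a finite
order with respect to `w = 1`.

(6) The condition of (2) holds if the graph is a tree (or a forest, oriented away from the roots), the
preimages of `N_{o(e)}` and `N_{t(e)}` in `B_e` are the same cyclic subgroup, and the images of its
generator have finite orders with respect to `w = 1`.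

(7) The condition of (2) holds if the graph is a tree (or a forest, oriented away from the roots), the
groups `G_v` are finitely generated, the edge groups are infinite cyclic with generators `x_e` in `G_{o(e)}`
and `y_e` in `G_{t(e)}`, and all powers `x_e^n` and `y_e^n`, `n ≠ 0`, in some normal subgroups `K_v` of finite
index of the `G_v` have finite orders with respect to `w = 1` (`PwFin`). This holds if the groups `G_v` are
virtually residually torsion-free nilpotent (for example, virtually special).

(8) An element which has a nontrivial image under some homomorphism to a group of unitriangular rational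
matrices (`UniDet`) has a finite order with respect to `w = 1`.

Outline of the proof of (1). It suffices to treat finitely generated `M` and `B_i`. Let `P_j` be the
finite-dimensional space of all functions on `N` (linear forms on `ℚ[N]`) which vanish on `Fw w j`, and `V_j`
the space of all functions on `M` which are in `P_j` on each coset of `N`. It must be shown that the two
representations of `B_i` on `V_J` (left translations via `α_i` and `β_i`) are equivalent. They are direct
sums of the same number of copies of the representations which are induced from the representations of
`B_i⁰` on `P_J`, so that the case `N = M` remains. The union `U` of the spaces `P_j` is closed under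
products. The group `B_i` is generated by elements `a_1, …, a_r` with orders `k_1 ≤ … ≤ k_r`, such that the
classes of the `a_j - 1` of equal order are linearly independent modulo the next step of the filtration,
and `a_j, …, a_r` generate a subgroup which is normalized by `a_{j-1}` (this uses the subgroups of the
elements of order at least `d` and that finitely generated subgroups of the vector spaces
`Fw w d / Fw w (d+1)` are free). There is a function `φ` of degree `k_1` with `φ(a_1 x) = φ(x) + 1`,
invariant under the other `a_j`. Each function in `U` is uniquely a sum of products of the binomial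
coefficients of `φ` and of functions invariant under `a_1`, with control of the degrees, so that the
invariants of `a_1` can be identified with the quotient `U/φU`, on which `a_2, …, a_r` act, with the same
dimensions of the filtration for `α_i` and `β_i`. By induction on `r` there is an isomorphism of the two
quotients which commutes with `a_2, …, a_r`; it lifts to an isomorphism of the representations of `B_i` (a
function is determined by the classes of its translates under the powers of `a_1`). Now the criterion
`mh_loc` of `MP_59dd5b_al.HomologyInjectiveEdges` applies (its second part is the case of abelian groups,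
`N = M`, in which all orders are 1).

For (7) it is shown that for each `j` there is a normal subgroup of finite index of `G`, contained in the
given normal subgroup `K` of finite index, such that a given element `z` of `K` of finite order `k` (with
respect to `w = 1`) has order exactly `j` modulo this subgroup: the integer-valued functions in `P_{k+1}`
form a lattice, `z` acts on it by `f ↦ f + λ(f)`, where the values of `λ` are the multiples of some `c ≠ 0`,
and the elements of `K` which act trivially modulo `cj` form such a subgroup. Then the subgroups `N_v` with
equal preimages in the edge groups are found by induction on the number of edges.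
-/

set_option autoImplicit false

namespace Pool.Agent.Results.MP_63c928_gt.EdgesOfEqualOrder

open Pool.Agent.Y110.FJ Pool.Agent.R779.FJ Pool.Agent.R942.FJ Pool.Agent.R669.Wt

theorem result (C : ∀ (G : Type) [Group G], Prop) (hC : ClosedE C)
    (hgl : ∀ n : ℕ, C (Matrix (Fin n) (Fin n) ℚ)ˣ) :
    (∀ (M : Type) [Group M] (I : Type) (B : I → Type) [∀ i, Group (B i)]
      (α β : ∀ i, B i →* M), C M → SameOrdV α β → C (MH α β)) ∧
    (∀ (Vt E : Type) (G : Vt → Type) [∀ v, Group (G v)] (B : E → Type) [∀ e, Group (B e)]
      (o t : E → Vt) (a : ∀ e, B e →* G (o e)) (b : ∀ e, B e →* G (t e)),
        (∀ v, C (G v)) → BalancedV o t a b → C (GraphGrp o t a b)) ∧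
    (∀ (M : Type) [Group M] (I : Type) (B : I → Type) [∀ i, Group (B i)]
      (α β : ∀ i, B i →* M), (∀ i, LocNil (B i)) → SameOrdA α β → SameOrdV α β) ∧
    (∀ (Vt E : Type) (G : Vt → Type) [∀ v, Group (G v)] (B : E → Type) [∀ e, Group (B e)]
      (o t : E → Vt) (a : ∀ e, B e →* G (o e)) (b : ∀ e, B e →* G (t e)),
        (∀ e, LocNil (B e)) → BalancedE o t a b → BalancedV o t a b) ∧
    (∀ (M : Type) [Group M] (N : Subgroup M), N.Normal → N.FiniteIndex →
      ∀ (I : Type) (B : I → Type) [∀ i, Group (B i)] (α : ∀ i, B i →* M) (θ : I → (M ≃* M)),
        (∀ i, N.comap (θ i).toMonoidHom = N) → (∀ i, LocNil (N.comap (α i))) →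
        (∀ i, ∀ b : B i, b ≠ 1 → ∀ x : N, (x : M) = α i b → FinOrd x) →
          SameOrdV α (fun i => (θ i).toMonoidHom.comp (α i))) ∧
    (∀ (Vt E : Type) (G : Vt → Type) [∀ v, Group (G v)] (B : E → Type) [∀ e, Group (B e)]
      (o t : E → Vt) (a : ∀ e, B e →* G (o e)) (b : ∀ e, B e →* G (t e))
      (N : ∀ v, Subgroup (G v)), Forest o t → (∀ v, (N v).Normal) → (∀ v, (N v).FiniteIndex) →
        (∀ e, ∃ c : B e, (N (o e)).comap (a e) = Subgroup.zpowers c ∧
          (N (t e)).comap (b e) = Subgroup.zpowers c ∧ ∀ (y : N (o e)) (z : N (t e)),
            (y : G (o e)) = a e c → (z : G (t e)) = b e c → FinOrd y ∧ FinOrd z) →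
        BalancedV o t a b) ∧
    (∀ (Vt E : Type) (G : Vt → Type) [∀ v, Group (G v)] (o t : E → Vt) (K : ∀ v, Subgroup (G v))
      (x : ∀ e, G (o e)) (y : ∀ e, G (t e)), Forest o t → (∀ v, Group.FG (G v)) →
        (∀ v, (K v).Normal) → (∀ v, (K v).FiniteIndex) →
        (∀ e, PwFin (K (o e)) (x e) ∧ PwFin (K (t e)) (y e)) →
        BalancedV o t (fun e => zpowersHom (G (o e)) (x e)) (fun e => zpowersHom (G (t e)) (y e))) ∧
    (∀ (G : Type) [Group G] (x : G), UniDet x → FinOrd x) :=
  ⟨fun _ _ _ _ _ α β hM h => mh_vir hC hgl hM α β h,
    fun _ _ _ _ _ _ o t a b hG h => gog_vir o t a b hC hgl hG h,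
    fun _ _ _ _ _ _ _ hB h => h.toV hB,
    fun _ _ _ _ _ _ _ _ _ _ hB h => h.toV hB,
    fun _ _ N hn hf _ _ _ α θ hθ hB h => SameOrdV.aut N hn hf α θ hθ hB h,
    fun _ _ _ _ _ _ _ _ _ _ N h hN hf hc => forest_V h N hN hf hc,
    fun _ _ _ _ _ _ K x y h hG hK hf hxy => forest_W h hG K hK hf x y (fun e => (hxy e).1)
      fun e => (hxy e).2,
    fun _ _ _ h => h.exists_ord⟩

end Pool.Agent.Results.MP_63c928_gt.EdgesOfEqualOrder
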