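import Pool.Agent.R941.FJ.RdpFactor

/-!
# Ascending series whose factors are abelian, locally finite or restricted direct products

`C` is any class of groups with the closure properties `ClosedE C` which contains the metabelian
groups. All this is known for the class of the groups that satisfy the A-theoretic Farrell–Jones
conjecture with coefficients and finite wreath products.

Let `N` be a normal subgroup of `G` with `G ⧸ N` in `C`, and suppose that `N` has an ascending series, of
any ordinal length, of normal subgroups of `G` such that each factor `M' ⧸ M` is

* abelian, or
* locally finite, or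
* the restricted direct product of a family of subgroups `K i`, `i ∈ I`, of `G ⧸ M` (`I` may be infinite)
  which are permuted by the conjugations, such that the groups `K i ⟨g⟩` are in `C` for all `g` in `G ⧸ M`
  that normalize `K i`; for instance, the `K i` may be torsion-free hyperbolic groups if `C` contains the
  extensions of such groups by cyclic groups.

Then `G` is in `C`.

In particular all groups whose nontrivial quotients have a nontrivial normal subgroup which is
abelian, or locally finite, or a product of this kind are in `C`.

Outline of the proof. By the criterion that conjugations are locally realized in the class, `C` is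
closed under extensions by locally finite groups (an isomorphism between two subgroups of a finite
group is induced by a permutation of this group) and by the restricted direct products above (the
conjugation by `g` on a finite set is realized in a product of wreath products of the groups
`K i ⟨g^m⟩` with finite cyclic groups). Consider the normal subgroups `M ≤ N` of `G` for which all groups
`M ⟨g⟩`, `g` in `G`, are in `C`. They are closed under unions of chains since `(⋃ M) ⟨g⟩ = ⋃ (M ⟨g⟩)`, and by
the extension criterion a maximal one is equal to `N`.
-/

set_option autoImplicit false

namespace Pool.Agent.Results.MP_63c928_gt.IteratedExtensions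

open Pool.Agent.Y110.FJ Pool.Agent.R941.FJ

theorem result (C : ∀ (G : Type) [Group G], Prop) (hC : ClosedE C)
    (hmet : ∀ (S : Type) [Group S], (∀ a ∈ commutator S, ∀ b ∈ commutator S, a * b = b * a) → C S)
    (G : Type) [Group G] (N : Subgroup G) [N.Normal] (hQ : C (G ⧸ N))
    (h : ∀ M : Subgroup G, ∀ _ : M.Normal, M < N → ∃ M' : Subgroup G, M'.Normal ∧ M < M' ∧ M' ≤ N ∧
      ((∀ a ∈ M', ∀ b ∈ M', a * b * a⁻¹ * b⁻¹ ∈ M) ∨
       (∀ E : Set G, E.Finite → E ⊆ M' → M.relIndex (Subgroup.closure E) ≠ 0) ∨
       (∃ (I : Type) (_ : MulAction (G ⧸ M) I) (K : I → Subgroup (G ⧸ M)),
          IsRdp (M'.map (QuotientGroup.mk' M)) K ∧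
          ∀ (i : I) (g : G ⧸ M), g • i = i → C ↥(K i ⊔ Subgroup.zpowers g)))) : C G := by
  refine hyper hC N hQ fun M hM hlt => ?_
  obtain ⟨M', hM', h1, h2, h3⟩ := h M hM hlt
  refine ⟨M', hM', h1, h2, fun g => ?_⟩
  rcases h3 with h3 | h3 | ⟨I, _, K, hK, hC'⟩
  · exact factor_ab hC hmet M M' h3 g
  · exact factor_lf hC M M' h3 g
  · exact factor_rdp hC M M' I K hK hC' g

end Pool.Agent.Results.MP_63c928_gt.IteratedExtensions
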