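import Pool.Agent.R367.CT.Fin

/-!
# Contracting groups and the multiplication tables of their nuclei

`C` is any class of groups with the closure properties `Closed C`, all of which are known for the
class of the groups that satisfy the A-theoretic Farrell–Jones conjecture with coefficients and
finite wreath products.

`Wr X G` is the wreath product of `G` with the symmetric group of `X`: its elements are pairs of a
family `s : X → G` of sections and a permutation `p` of `X`, with `(ab).s x = a.s (b.p x) * b.s x`. A
homomorphism `ψ : G →* Wr X G` gives sections `sec ψ g w` of the elements at the words `w` over `X`
and an action `act ψ g w` on the words. `TableGroup N` is the group with the set `N` of generators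
and all relations `xy = z` with `x, y, z` in `N` and `xy = z` in `G`.

Proof. The recursion of `G` lifts to a recursion of the table group, which contracts to the
generators: a product of two generators has deep sections which are products `x * y` of generators
with `xy` in `N`. On the generators the homomorphism to `G` is injective, so its kernel is the union
of the kernels of the iterated recursions, and the subgroup generated by `N` is a directed colimit of
subgroups of iterated wreath products of the table group. Finally `G` is the union of the subgroups
of the elements with sections of the level `n` in the subgroup generated by `N`.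
-/

set_option autoImplicit false

namespace Pool.Agent.Results.MP_63c928_gt.NucleusTables

open Pool.Agent.Y462.SS Pool.Agent.R367.CT

/-- `N` is a finite set which contains `1`, the inverses and the sections of its elements. -/
def SelfSimilarSet {X G : Type} [Group G] (ψ : G →* Wr X G) (N : Set G) : Prop :=
  N.Finite ∧ 1 ∈ N ∧ (∀ g ∈ N, g⁻¹ ∈ N) ∧ ∀ g ∈ N, ∀ x, (ψ g).s x ∈ N

/-- The sections of every element at all long words are in `N`. -/
def ContractsTo {X G : Type} [Group G] (ψ : G →* Wr X G) (N : Set G) : Prop :=
  ∀ g : G, ∃ n : ℕ, ∀ w : List X, n ≤ w.length → sec ψ g w ∈ N

/-- Only `1` acts trivially on the words. -/
def IsFaithful {X G : Type} [Group G] (ψ : G →* Wr X G) : Prop :=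
  ∀ g : G, (∀ w : List X, act ψ g w = w) → g = 1

/-- Let `C` be a class of groups with `Closed C`, and let the group `G`, not necessarily finitely
generated, act faithfully on the words over a finite alphabet by a recursion `ψ` which contracts to
the finite self-similar set `N`. If the finitely presented group with the set of generators `N` and
the relations `xy = z`, for all `x, y, z` in `N` with `xy = z` in `G`, is in `C`, then `G` is in
`C`. -/
theorem result (C : ∀ (G : Type) [Group G], Prop) (hC : Closed C) (X G : Type) [Group G]
    (hX : Finite X) (ψ : G →* Wr X G) (N : Set G) (hN : SelfSimilarSet ψ N)
    (hcon : ContractsTo ψ N) (hf : IsFaithful ψ) (hT : C (TableGroup N)) : C G :=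
  contracting_closed hC hX ψ hN.2.2.2 hN.1 hN.2.1 hN.2.2.1 hcon hf hT

end Pool.Agent.Results.MP_63c928_gt.NucleusTables
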