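import Pool.Agent.R632.RH.Main

/-!
# Hierarchies over groups of finite Hirsch length and the Farrell–Jones conjecture

`C` is any class of groups with the closure properties `ClosedE C`, all of which are known for the
class of the groups that satisfy the Full Farrell–Jones Conjecture (with coefficients and finite wreath
products) in K-theory, L-theory and A-theory.

Let `G` be residually a torsion-free member of `C`: for each nontrivial `g` in `G` there is a
homomorphism from `G` to a torsion-free group in `C` which does not kill `g`. Suppose that `G` has a
hierarchy that ends in groups in `C`: it is built from groups in `C` by finitely many steps which are
amalgamated products and HNN extensions with edge groups of finite Hirsch length, or directed unions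
(so graphs of groups with such edge groups are allowed). Then `G` is in `C`.

The groups of finite Hirsch length (`FiniteHirsch`) contain the polycyclic groups and the solvable
groups of finite rank, e.g. `ℚⁿ` and the Baumslag–Solitar groups `BS(1, n)`.

Example: if `A` and `B` are finitely generated torsion-free nilpotent groups and the amalgamated
product `A *_K B` is residually torsion-free nilpotent, then it is in the Farrell–Jones class.

Outline of the proof. The kernels of the homomorphisms from `G` to torsion-free groups in `C` meet an
edge group `K` in isolated normal subgroups of `K`. Since `K` has finite Hirsch length, these satisfy
the descending chain condition, so one homomorphism to a torsion-free group in `C` is injective on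
`K`. Then `MP_8f66f0_al.EdgeInjectiveSplittings` applies to each step of the hierarchy.
-/

set_option autoImplicit false

namespace Pool.Agent.Results.MP_63c928_gt.ResidualHierarchies

open Pool.Agent.Y110.FJ Pool.Agent.R632.RH

/-- **Residual hierarchies in a Farrell–Jones class.** -/
theorem result (C : ∀ (G : Type) [Group G], Prop) (hC : ClosedE C) (G : Type) [Group G]
    (hG : Hierarchy C G) (hR : ResTF C G) : C G :=
  main hC G hG hR

end Pool.Agent.Results.MP_63c928_gt.ResidualHierarchies
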